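import Pool.Agent.H37.CNU.Stmts
import Pool.Agent.H37.CNH.Stmts
import Pool.Agent.H37.CNQ.Stmts

/-!
# Denominators of conductors: the upper bound for `SU_3(q)`, `PSU_3(q)`: statements of the rows of the
board `cnv`

Row `XXX` is a theorem `xxx_thm (h1 : S_AAA) ... : S_XXX` in `Pool/Agent/H<k>/CNV/XXX.lean`, importing this
file, namespace `Pool.CND`.

For `g` in the Borel group `g_10 = g_20 = 0` write `a = g_00`; `g = ` upper triangular with diagonal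
`(a, a ^ (q - 1), a ^ (-q))` (row `UNB`).  `U` = the elements with `a = 1`, `Z` = those with also `g_12 = 0`;
`U / Z ≃ F` by `g_12`; conjugation by `g` multiplies `g_12` by `α = a ^ (2 q - 1)`, and acts on `Z` (entry `g_02`) by
`a ^ (q + 1) = α ^ (q + 1)`; two elements of `U` commute iff `e e' ^ q = e ^ q e'` (`e`, `e'` their entries `12`).
-/

set_option autoImplicit false

namespace Pool.CND

open Finset Matrix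

/-- TAM: the exact tame part.  `W = ram 1`, `I = ram 0`, `C = {w ∈ W : w = 1 or b w = l}`, `n c = U(W)`.
`ζ(g)` = leading coefficient of `g u / u` (`g ∈ I`; kernel `W`), `θ(w)` = leading coefficient of `(w u - u) / u ^ (b w + 1)`:
`θ(g w g⁻¹) = ζ(g) ^ (b w) θ(w)` up to inversion of `ζ`.  `C` is central in `W`: `b([x, w]) ≥ b x + b w` or `[x, w] = 1`.  Take `g`
with `ζ(g)` of order `n`: the sum of `b` over an orbit of `g` in `W \ 1` is a multiple of `n`; if `g ^ r` centralises `C`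
then `n ∣ r l`; so `n ∣ r (l + ∑ b) = r n c |W|`; with `p ^ d n c ∈ ℤ` (`INB`), `p ^ d r c` is an integer. -/
def S_TAM : Prop := ∀ (p : ℕ) (k G : Type) [Field k] [Group G] [Finite G] (c : ℚ), p.Prime →
  CharP k p → c ∈ Cond k G → c = 0 ∨ ∃ (W I C : Subgroup G) (n : ℕ), C ≤ W ∧ W ≤ I ∧ C ≠ ⊥ ∧
    (∃ r : ℕ, Nat.card W = p ^ r) ∧ (∀ g ∈ I, ∀ w ∈ W, g * w * g⁻¹ ∈ W) ∧
    (∀ g ∈ I, ∀ x ∈ C, g * x * g⁻¹ ∈ C) ∧ (∀ w ∈ W, ∀ x ∈ C, w * x = x * w) ∧ ¬ p ∣ n ∧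
    Nat.card I = n * Nat.card W ∧
    ∀ (A : Subgroup G) (d r : ℕ), A ≤ W → (∀ a ∈ A, ∀ b ∈ A, a * b = b * a) →
      Nat.card W = p ^ d * Nat.card A → (∀ g ∈ I, ∀ x ∈ C, g ^ r * x = x * g ^ r) →
      ∃ z : ℤ, ((p ^ d * r : ℕ) : ℚ) * c = z

/-- VB1: a nontrivial `p`-subgroup `W` of `SU_3(q)` fixes exactly one isotropic line (their number is
`q ^ 3 + 1`; an element of order a power of `p` fixing two of them is `1`); `SU_3(q)` is transitive on them -/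
def S_VB1 : Prop := ∀ (p : ℕ) (F : Type) [Field F] (f q : ℕ) (σ : F →+* F), p.Prime → 1 ≤ f →
  q = p ^ f → Nat.card F = q ^ 2 → (∀ a, σ a = a ^ q) → ∀ W : Subgroup (SU3 σ), W ≠ ⊥ →
  (∃ r : ℕ, Nat.card W = p ^ r) → ∃ h : SU3 σ, ∀ g : SU3 σ, (∀ w ∈ W, g * w * g⁻¹ ∈ W) →
    (h⁻¹ * g * h).1.1 1 0 = 0 ∧ (h⁻¹ * g * h).1.1 2 0 = 0

/-- VB2: inside the Borel group.  `A` = the elements of `W` with `g_12 ^ q = g_12` (`UNB`).  If `C ≤ Z`: `g ^ (q - 1)` acts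
trivially on `Z`.  If `x ∈ C`, `x ∉ Z`, then `g_12 ∈ x_12 F_q` for all elements of `W`, so `α ∈ F_q`; `g ^ (q - 1)` acts
trivially on `C / (C ∩ Z)` and on `C ∩ Z`, so with order dividing `p` on `C`, and with order dividing `n` -/
def S_VB2 : Prop := ∀ (p : ℕ) (F : Type) [Field F] (f q : ℕ) (σ : F →+* F), p.Prime → 1 ≤ f →
  q = p ^ f → Nat.card F = q ^ 2 → (∀ a, σ a = a ^ q) → ∀ (W I C : Subgroup (SU3 σ)) (n : ℕ),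
  (∀ g ∈ I, g.1.1 1 0 = 0 ∧ g.1.1 2 0 = 0) → C ≤ W → W ≤ I → (∃ r : ℕ, Nat.card W = p ^ r) →
  (∀ g ∈ I, ∀ w ∈ W, g * w * g⁻¹ ∈ W) → (∀ g ∈ I, ∀ x ∈ C, g * x * g⁻¹ ∈ C) →
  (∀ w ∈ W, ∀ x ∈ C, w * x = x * w) → ¬ p ∣ n → Nat.card I = n * Nat.card W →
  (∃ (A : Subgroup (SU3 σ)) (d : ℕ), A ≤ W ∧ (∀ a ∈ A, ∀ b ∈ A, a * b = b * a) ∧ p ^ d ∣ q ∧
    Nat.card W = p ^ d * Nat.card A) ∧ ∀ g ∈ I, ∀ x ∈ C, g ^ (q - 1) * x = x * g ^ (q - 1)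

/-- VGW: from `VB1`, `VB2` (conjugate by `h`) -/
def S_VGW : Prop := ∀ (p : ℕ) (F : Type) [Field F] (f q : ℕ) (σ : F →+* F), p.Prime → 1 ≤ f →
  q = p ^ f → Nat.card F = q ^ 2 → (∀ a, σ a = a ^ q) → ∀ (W I C : Subgroup (SU3 σ)) (n : ℕ),
  C ≤ W → W ≤ I → C ≠ ⊥ → (∃ r : ℕ, Nat.card W = p ^ r) →
  (∀ g ∈ I, ∀ w ∈ W, g * w * g⁻¹ ∈ W) → (∀ g ∈ I, ∀ x ∈ C, g * x * g⁻¹ ∈ C) →
  (∀ w ∈ W, ∀ x ∈ C, w * x = x * w) → ¬ p ∣ n → Nat.card I = n * Nat.card W →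
  (∃ (A : Subgroup (SU3 σ)) (d : ℕ), A ≤ W ∧ (∀ a ∈ A, ∀ b ∈ A, a * b = b * a) ∧ p ^ d ∣ q ∧
    Nat.card W = p ^ d * Nat.card A) ∧ ∀ g ∈ I, ∀ x ∈ C, g ^ (q - 1) * x = x * g ^ (q - 1)

/-- VZC: the centre of `SU_3(q)` has order prime to `p` (it consists of scalars `ζ` with `ζ ^ 3 = 1`) -/
def S_VZC : Prop := ∀ (p : ℕ) (F : Type) [Field F] (f q : ℕ) (σ : F →+* F), p.Prime → 1 ≤ f →
  q = p ^ f → Nat.card F = q ^ 2 → (∀ a, σ a = a ^ q) →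
  Finite (SU3 σ) ∧ ¬ p ∣ Nat.card (Subgroup.center (SU3 σ))

/-- VGP: the same for `PSU_3(q)`: from `VGW`, `VZC` for the preimage of `I`, the Sylow `p`-subgroup `W'` of the
preimage of `W` (which is `W'` times the centre) and the preimage of `C` in `W'` -/
def S_VGP : Prop := ∀ (p : ℕ) (F : Type) [Field F] (f q : ℕ) (σ : F →+* F), p.Prime → 1 ≤ f →
  q = p ^ f → Nat.card F = q ^ 2 → (∀ a, σ a = a ^ q) →
  ∀ (W I C : Subgroup (SU3 σ ⧸ Subgroup.center (SU3 σ))) (n : ℕ),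
  C ≤ W → W ≤ I → C ≠ ⊥ → (∃ r : ℕ, Nat.card W = p ^ r) →
  (∀ g ∈ I, ∀ w ∈ W, g * w * g⁻¹ ∈ W) → (∀ g ∈ I, ∀ x ∈ C, g * x * g⁻¹ ∈ C) →
  (∀ w ∈ W, ∀ x ∈ C, w * x = x * w) → ¬ p ∣ n → Nat.card I = n * Nat.card W →
  (∃ (A : Subgroup (SU3 σ ⧸ Subgroup.center (SU3 σ))) (d : ℕ), A ≤ W ∧
    (∀ a ∈ A, ∀ b ∈ A, a * b = b * a) ∧ p ^ d ∣ q ∧ Nat.card W = p ^ d * Nat.card A) ∧
  ∀ g ∈ I, ∀ x ∈ C, g ^ (q - 1) * x = x * g ^ (q - 1)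

/-- VSU: `N = q (q - 1)` for `SU_3(q)`: from `TAM`, `VGW`, `VZC`, `NGD`, `UNP` -/
def S_VSU : Prop := ∀ (p : ℕ) (k F : Type) [Field k] [IsAlgClosed k] [Field F] (f q : ℕ)
  (σ : F →+* F), p.Prime → CharP k p → 1 ≤ f → q = p ^ f → Nat.card F = q ^ 2 →
  (∀ a, σ a = a ^ q) → NG k (SU3 σ) = q * (q - 1)

/-- VPU: `N = q (q - 1)` for `PSU_3(q)`: from `TAM`, `VGP`, `VZC`, `NGD`, `NQD`, `UNP` -/
def S_VPU : Prop := ∀ (p : ℕ) (k F : Type) [Field k] [IsAlgClosed k] [Field F] (f q : ℕ)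
  (σ : F →+* F), p.Prime → CharP k p → 1 ≤ f → q = p ^ f → Nat.card F = q ^ 2 →
  (∀ a, σ a = a ^ q) → NG k (SU3 σ ⧸ Subgroup.center (SU3 σ)) = q * (q - 1)

end Pool.CND
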